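import Mathlib

open scoped InnerProduct ComplexConjugate
open ContinuousLinearMap

namespace Pool.Agent.Results.MP_9e58cf_an.NotBicommutant

variable {H : Type*} [NormedAddCommGroup H] [InnerProductSpace ℂ H] [CompleteSpace H]

/-- `A` is of trace class: it is a sum of rank-one operators `a n ⊗ b n` with
`∑ ‖a n‖ ‖b n‖ < ∞`. -/
def TraceClass (A : H →L[ℂ] H) : Prop :=
  ∃ a b : ℕ → H, Summable (fun n => ‖a n‖ * ‖b n‖) ∧
    ∀ x : H, HasSum (fun n => inner ℂ (b n) x • a n) (A x)

/-- `T` is almost isometric: `1 - T* T` is of trace class. -/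
def AlmostIsometric (T : H →L[ℂ] H) : Prop :=
  TraceClass (1 - adjoint T * T)

/-- The resolvents `(T - z)⁻¹`, for `z` outside the spectrum of `T`. -/
def resolvents (T : H →L[ℂ] H) : Set (H →L[ℂ] H) :=
  {R | ∃ z : ℂ, z ∉ spectrum ℂ T ∧ R = Ring.inverse (T - algebraMap ℂ (H →L[ℂ] H) z)}

/-- The closure, in the weak operator topology, of the linear span of the resolvents. -/
def resolventSpace (T : H →L[ℂ] H) : Set (H →L[ℂ] H) :=
  {S | ContinuousLinearMapWOT.ofCLM S ∈ closure (ContinuousLinearMapWOT.ofCLM ''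
    (Submodule.span ℂ (resolvents T) : Set (H →L[ℂ] H)))}

/-- The bicommutant of `T`. -/
def bicommutant (T : H →L[ℂ] H) : Set (H →L[ℂ] H) :=
  Set.centralizer (Set.centralizer {T})

namespace TraceClass

omit [CompleteSpace H] in
lemma of_index {ι : Type*} (σ : ℕ ≃ ι) {A : H →L[ℂ] H} (a b : ι → H)
    (h : Summable (fun n => ‖a n‖ * ‖b n‖))
    (h' : ∀ x : H, HasSum (fun n => inner ℂ (b n) x • a n) (A x)) : TraceClass A :=
  ⟨a ∘ σ, b ∘ σ, (σ.summable_iff (f := fun n => ‖a n‖ * ‖b n‖)).2 h,
    fun x => (σ.hasSum_iff (f := fun n => inner ℂ (b n) x • a n)).2 (h' x)⟩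

omit [CompleteSpace H] in
lemma add {A B : H →L[ℂ] H} (hA : TraceClass A) (hB : TraceClass B) : TraceClass (A + B) := by
  obtain ⟨a, b, h1, h2⟩ := hA
  obtain ⟨a', b', h1', h2'⟩ := hB
  refine of_index Equiv.natSumNatEquivNat.symm (Sum.elim a a') (Sum.elim b b') ?_ ?_
  · exact Summable.sum _ (by simpa [Function.comp_def]) (by simpa [Function.comp_def])
  · intro x
    exact HasSum.sum (by simpa [Function.comp_def] using h2 x)
      (by simpa [Function.comp_def] using h2' x)

omit [CompleteSpace H] in
lemma neg {A : H →L[ℂ] H} (hA : TraceClass A) : TraceClass (-A) := by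
  obtain ⟨a, b, h1, h2⟩ := hA
  refine ⟨fun n => - a n, b, by simpa using h1, fun x => ?_⟩
  simpa using (h2 x).neg

omit [CompleteSpace H] in
lemma comp_left {A : H →L[ℂ] H} (hA : TraceClass A) (B : H →L[ℂ] H) : TraceClass (B * A) := by
  obtain ⟨a, b, h1, h2⟩ := hA
  refine ⟨fun n => B (a n), b, ?_, fun x => ?_⟩
  · refine Summable.of_nonneg_of_le (fun n => by positivity) (fun n => ?_) (h1.mul_left ‖B‖)
    rw [← mul_assoc]
    exact mul_le_mul_of_nonneg_right (B.le_opNorm _) (norm_nonneg _)
  · simpa using B.hasSum (h2 x)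

lemma adjoint {A : H →L[ℂ] H} (hA : TraceClass A) : TraceClass (adjoint A) := by
  obtain ⟨a, b, h1, h2⟩ := hA
  refine ⟨b, a, by simpa [mul_comm] using h1, fun x => ?_⟩
  have hs : Summable (fun n => inner ℂ (a n) x • b n) := by
    refine Summable.of_norm_bounded (g := fun n => (‖a n‖ * ‖b n‖) * ‖x‖) (h1.mul_right _) ?_
    intro n
    rw [norm_smul]
    calc ‖inner ℂ (a n) x‖ * ‖b n‖ ≤ (‖a n‖ * ‖x‖) * ‖b n‖ :=
          mul_le_mul_of_nonneg_right (norm_inner_le_norm _ _) (norm_nonneg _)
      _ = _ := by ring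
  convert hs.hasSum using 1
  refine ext_inner_left ℂ fun y => ?_
  rw [ContinuousLinearMap.adjoint_inner_right]
  have e1 : HasSum (fun n => inner ℂ y (inner ℂ (a n) x • b n))
      (inner ℂ y (∑' n, inner ℂ (a n) x • b n)) := by
    exact (innerSL ℂ y).hasSum hs.hasSum
  have e2 : HasSum (fun n => inner ℂ x (inner ℂ (b n) y • a n)) (inner ℂ x (A y)) := by
    exact (innerSL ℂ x).hasSum (h2 y)
  have e3 := (e2.map (starRingEnd ℂ).toAddMonoidHom RCLike.continuous_conj)
  have e4 : HasSum (fun n => inner ℂ y (inner ℂ (a n) x • b n)) (inner ℂ (A y) x) := by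
    convert e3 using 1
    · funext n
      simp [mul_comm]
    · simp
  exact e4.unique e1

end TraceClass

/-- If `K` is of trace class then `1 + K` is almost isometric. -/
lemma almostIsometric_one_add {K : H →L[ℂ] H} (hK : TraceClass K) : AlmostIsometric (1 + K) := by
  have h1 := ((hK.add hK.adjoint).add (hK.comp_left (adjoint K))).neg
  unfold AlmostIsometric
  convert h1 using 1
  rw [map_add]
  have : adjoint (1 : H →L[ℂ] H) = 1 := by
    rw [← ContinuousLinearMap.star_eq_adjoint, star_one]
  rw [this]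
  noncomm_ring

section Main

variable {ι : Type*} (x y : ι → H) (s : ι → ℝ)

/-- the rank-one operators. -/
noncomputable def rk (i : ι) : H →L[ℂ] H :=
  (innerSL ℂ (y i)).smulRight ((s i : ℂ) • x i)

omit [CompleteSpace H] in
lemma norm_rk_le (i : ι) : ‖rk x y s i‖ ≤ |s i| * ‖x i‖ * ‖y i‖ := by
  unfold rk
  rw [ContinuousLinearMap.norm_smulRight_apply, norm_smul, innerSL_apply_norm]
  simp only [Complex.norm_real, Real.norm_eq_abs]
  apply le_of_eq; ring

variable (hs : Summable (fun i => |s i| * ‖x i‖ * ‖y i‖))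

include hs in
lemma summable_rk : Summable (rk x y s) :=
  Summable.of_norm_bounded hs (norm_rk_le x y s)

/-- the operator `∑ s i • x i ⊗ y i`. -/
noncomputable def KK : H →L[ℂ] H := ∑' i, rk x y s i

include hs in
lemma hasSum_KK (p : H) : HasSum (fun i => inner ℂ (y i) p • ((s i : ℂ) • x i)) (KK x y s p) := by
  have h1 := (summable_rk x y s hs).hasSum
  have h2 := (ContinuousLinearMap.apply ℂ H p).hasSum h1
  simpa [rk, KK] using h2

include hs in
lemma traceClass_KK (σ : ℕ ≃ ι) : TraceClass (KK x y s) := by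
  refine TraceClass.of_index σ (fun i => (s i : ℂ) • x i) y ?_ (hasSum_KK x y s hs)
  simpa [norm_smul] using hs

variable [DecidableEq ι] (hbi : ∀ i j, inner ℂ (y i) (x j) = if i = j then (1 : ℂ) else 0)
  (hs0 : ∀ i, s i ≠ 0)

include hs hbi in
lemma inner_y_KK (i : ι) (p : H) :
    inner ℂ (y i) (KK x y s p) = (s i : ℂ) * inner ℂ (y i) p := by
  have h1 := (innerSL ℂ (y i)).hasSum (hasSum_KK x y s hs p)
  have h2 : HasSum (fun j => (innerSL ℂ (y i)) (inner ℂ (y j) p • ((s j : ℂ) • x j)))
      ((innerSL ℂ (y i)) (inner ℂ (y i) p • ((s i : ℂ) • x i))) := by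
    refine hasSum_single i fun j hj => ?_
    simp [inner_smul_right, hbi, Ne.symm hj]
  have h3 := h1.unique h2
  simp only [innerSL_apply_apply, inner_smul_right, hbi, if_true] at h3
  rw [h3]; ring

include hs hbi in
lemma KK_x (i : ι) : KK x y s (x i) = (s i : ℂ) • x i := by
  have h1 := hasSum_KK x y s hs (x i)
  have h2 : HasSum (fun j => inner ℂ (y j) (x i) • ((s j : ℂ) • x j))
      (inner ℂ (y i) (x i) • ((s i : ℂ) • x i)) := by
    refine hasSum_single i fun j hj => ?_
    simp [hbi, hj]
  have h3 := h1.unique h2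
  rw [h3, hbi]; simp

variable (M : Submodule ℂ H) [M.HasOrthogonalProjection]
  (hx : ∀ p : H, (∀ i, inner ℂ (x i) p = 0) ↔ p ∈ Mᗮ)
  (hy : ∀ p : H, (∀ i, inner ℂ (y i) p = 0) ↔ p ∈ Mᗮ)

include hs hy in
lemma KK_perp {p : H} (hp : p ∈ Mᗮ) : KK x y s p = 0 := by
  have h1 := hasSum_KK x y s hs p
  have h2 := (hy p).2 hp
  simp only [h2, zero_smul] at h1
  exact h1.unique hasSum_zero

include hs hx in
lemma adj_KK_perp {q : H} (hq : q ∈ Mᗮ) : adjoint (KK x y s) q = 0 := by
  refine ext_inner_left ℂ fun p => ?_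
  rw [ContinuousLinearMap.adjoint_inner_right, inner_zero_right]
  have h1 := (innerSL ℂ q).hasSum (hasSum_KK x y s hs p)
  have h2 : ∀ i, inner ℂ q (x i) = 0 := fun i => by
    rw [← inner_conj_symm, (hx q).2 hq i, map_zero]
  have h3 : (fun j => (innerSL ℂ q) (inner ℂ (y j) p • ((s j : ℂ) • x j))) = fun _ => (0 : ℂ) := by
    funext j
    simp [inner_smul_right, h2]
  rw [h3] at h1
  have h4 := h1.unique hasSum_zero
  rw [innerSL_apply_apply] at h4
  rw [← inner_conj_symm, h4, map_zero]

include hs hbi hs0 hx hy in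
/-- An operator commuting with `K` commutes with the projection onto `M`. -/
lemma commute_proj {A : H →L[ℂ] H} (hA : KK x y s * A = A * KK x y s) :
    A * M.starProjection = M.starProjection * A := by
  have h1 : ∀ p ∈ Mᗮ, A p ∈ Mᗮ := by
    intro p hp
    rw [← hy]
    intro i
    have e1 := inner_y_KK x y s hs hbi i (A p)
    have e2 : KK x y s (A p) = A (KK x y s p) := by
      have := congrArg (fun B : H →L[ℂ] H => B p) hA
      simpa using this
    rw [e2, KK_perp x y s hs M hy hp, map_zero, inner_zero_right] at e1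
    rcases mul_eq_zero.1 e1.symm with h | h
    · exact absurd (by exact_mod_cast h) (hs0 i)
    · exact h
  have h2 : ∀ q ∈ Mᗮ, adjoint A q ∈ Mᗮ := by
    intro q hq
    rw [← hx]
    intro i
    have e2 : KK x y s (A (x i)) = (s i : ℂ) • A (x i) := by
      have : KK x y s (A (x i)) = A (KK x y s (x i)) :=
        congrArg (fun B : H →L[ℂ] H => B (x i)) hA
      rw [this, KK_x x y s hs hbi i, map_smul]
    have e3 : inner ℂ (KK x y s (A (x i))) q = 0 := by
      rw [← ContinuousLinearMap.adjoint_inner_right, adj_KK_perp x y s hs M hx hq,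
        inner_zero_right]
    rw [e2, inner_smul_left] at e3
    rw [ContinuousLinearMap.adjoint_inner_right]
    rcases mul_eq_zero.1 e3 with h | h
    · exact absurd (by simpa using h) (hs0 i)
    · exact h
  have h3 : ∀ p ∈ M, A p ∈ M := by
    intro p hp
    rw [← Submodule.orthogonal_orthogonal M, Submodule.mem_orthogonal]
    intro q hq
    rw [← ContinuousLinearMap.adjoint_inner_left]
    exact Submodule.inner_left_of_mem_orthogonal hp (h2 q hq)
  ext p
  change A (M.starProjection p) = M.starProjection (A p)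
  have hp1 : M.starProjection p ∈ M := Submodule.starProjection_apply_mem M p
  have hp2 : p - M.starProjection p ∈ Mᗮ := Submodule.sub_starProjection_mem_orthogonal p
  have e1 : A p = A (M.starProjection p) + A (p - M.starProjection p) := by
    rw [← map_add]; congr 1; abel
  rw [e1, map_add, Submodule.starProjection_eq_self_iff.2 (h3 _ hp1),
    (Submodule.starProjection_apply_eq_zero_iff M).2 (h1 _ hp2), add_zero]

variable (f c : H) (hf : f ∈ M) (hc : c ∈ Mᗮ) (hf1 : inner ℂ f f = (1 : ℂ))
  (hc1 : inner ℂ c c = (1 : ℂ))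
  (hfx : ∀ i, inner ℂ f (x i) = 0 ∨ inner ℂ (y i) f = 0)

include hs hbi hc hy hf1 hc1 hfx in
/-- The functional `A ↦ ⟪f, A f⟫ - ⟪c, A c⟫` kills the resolvents of `1 + K`. -/
lemma functional_resolvent {R : H →L[ℂ] H} (hR : R ∈ resolvents (1 + KK x y s)) :
    inner ℂ f (R f) = inner ℂ c (R c) := by
  obtain ⟨z, hz, rfl⟩ := hR
  set T := (1 + KK x y s) - algebraMap ℂ (H →L[ℂ] H) z with hT
  have hu : IsUnit T := by
    rw [spectrum.notMem_iff] at hz
    have := hz.neg
    rwa [neg_sub] at this
  have hTR : ∀ p, T (Ring.inverse T p) = p := fun p => by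
    have := congrArg (fun B : H →L[ℂ] H => B p) (Ring.mul_inverse_cancel T hu)
    simpa using this
  have hRT : ∀ p, Ring.inverse T (T p) = p := fun p => by
    have := congrArg (fun B : H →L[ℂ] H => B p) (Ring.inverse_mul_cancel T hu)
    simpa using this
  have hTp : ∀ p, T p = (1 - z) • p + KK x y s p := fun p => by
    rw [hT]
    simp only [sub_apply, add_apply, one_apply_eq_self,
      ContinuousLinearMap.algebraMap_apply, sub_smul, one_smul]
    abel
  have hTc : T c = (1 - z) • c := by
    rw [hTp, KK_perp x y s hs M hy hc, add_zero]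
  have hc0 : c ≠ 0 := by
    rintro rfl
    simp at hc1
  have hz1 : (1 - z) ≠ 0 := by
    intro h0
    rw [h0, zero_smul] at hTc
    have := hRT c
    rw [hTc, map_zero] at this
    exact hc0 this.symm
  have e1 : (1 - z) * inner ℂ c (Ring.inverse T c) = 1 := by
    have := hRT c
    rw [hTc, map_smul] at this
    rw [← inner_smul_right, this, hc1]
  have e2 : ∀ i, inner ℂ f (x i) = 0 ∨ inner ℂ (y i) (Ring.inverse T f) = 0 := by
    intro i
    rcases hfx i with h | h
    · exact Or.inl h
    · right
      have h1 := congrArg (fun v => inner ℂ (y i) v) (hTR f)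
      simp only [hTp, inner_add_right, inner_smul_right, inner_y_KK x y s hs hbi, h] at h1
      have h2 : (1 - z + s i) * inner ℂ (y i) (Ring.inverse T f) = 0 := by
        rw [← h1]; ring
      rcases mul_eq_zero.1 h2 with h3 | h3
      · exfalso
        have h4 : T (x i) = 0 := by
          rw [hTp, KK_x x y s hs hbi, ← add_smul, h3, zero_smul]
        have h5 := hRT (x i)
        rw [h4, map_zero] at h5
        have h6 := hbi i i
        rw [← h5] at h6
        simp at h6
      · exact h3
  have e3 : inner ℂ f (KK x y s (Ring.inverse T f)) = 0 := by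
    have h1 := (innerSL ℂ f).hasSum (hasSum_KK x y s hs (Ring.inverse T f))
    have h3 : (fun j => (innerSL ℂ f) (inner ℂ (y j) (Ring.inverse T f) • ((s j : ℂ) • x j)))
        = fun _ => (0 : ℂ) := by
      funext j
      rcases e2 j with h | h
      · simp [inner_smul_right, h]
      · simp [h]
    rw [h3] at h1
    have h4 := h1.unique hasSum_zero
    rwa [innerSL_apply_apply] at h4
  have e4 : (1 - z) * inner ℂ f (Ring.inverse T f) = 1 := by
    have h1 := congrArg (fun v => inner ℂ f v) (hTR f)
    simp only [hTp, inner_add_right, inner_smul_right, e3, add_zero, hf1] at h1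
    exact h1
  exact mul_left_cancel₀ hz1 (e4.trans e1.symm)

include hs hbi hs0 hx hy hf hc hf1 hc1 hfx in
/-- The projection onto `M` is in the bicommutant, but not in the resolvent space. -/
theorem main_abstract (σ : ℕ ≃ ι) :
    ∃ T : H →L[ℂ] H, AlmostIsometric T ∧ TraceClass (T - 1) ∧
      ∃ S ∈ bicommutant T, S ∉ resolventSpace T := by
  have hK := traceClass_KK x y s hs σ
  refine ⟨1 + KK x y s, almostIsometric_one_add hK, by simpa using hK, ?_⟩
  have h1 : M.starProjection ∈ bicommutant (1 + KK x y s) := by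
    rw [bicommutant, Set.mem_centralizer_iff]
    intro A hA
    rw [Set.mem_centralizer_iff] at hA
    have h2 := hA _ rfl
    apply commute_proj x y s hs hbi hs0 M hx hy
    rw [add_mul, mul_add, one_mul, mul_one] at h2
    exact add_left_cancel h2
  refine ⟨M.starProjection, h1, fun h1 => ?_⟩
  rw [resolventSpace, Set.mem_ofPred_eq] at h1
  let Φ : (H →WOT[ℂ] H) → ℂ := fun S => inner ℂ f (S f) - inner ℂ c (S c)
  have hΦ : Continuous Φ := by
    have a1 : Continuous fun S : H →WOT[ℂ] H => (innerSL ℂ f) (S f) :=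
      ContinuousLinearMapWOT.continuous_dual_apply f (innerSL ℂ f)
    have a2 : Continuous fun S : H →WOT[ℂ] H => (innerSL ℂ c) (S c) :=
      ContinuousLinearMapWOT.continuous_dual_apply c (innerSL ℂ c)
    exact a1.sub a2
  have hcl : IsClosed {S : H →WOT[ℂ] H | Φ S = 0} := isClosed_eq hΦ continuous_const
  have hsub : (ContinuousLinearMapWOT.ofCLM ''
      (Submodule.span ℂ (resolvents (1 + KK x y s)) : Set (H →L[ℂ] H))) ⊆
      {S : H →WOT[ℂ] H | Φ S = 0} := by
    rintro _ ⟨S, hS, rfl⟩
    have hS' : S ∈ Submodule.span ℂ (resolvents (1 + KK x y s)) := hS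
    show inner ℂ f (S f) - inner ℂ c (S c) = 0
    rw [sub_eq_zero]
    clear hS
    induction hS' using Submodule.span_induction with
    | mem S hS => exact functional_resolvent x y s hs hbi M hy f c hc hf1 hc1 hfx hS
    | zero => simp
    | add S S' _ _ h h' => simp [inner_add_right, h, h']
    | smul a S _ h => simp [inner_smul_right, h]
  have h2 := closure_minimal hsub hcl h1
  have h3 : inner ℂ f (M.starProjection f) - inner ℂ c (M.starProjection c) = (0 : ℂ) := h2
  rw [Submodule.starProjection_eq_self_iff.2 hf,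
    (Submodule.starProjection_apply_eq_zero_iff M).2 hc, inner_zero_right, hf1, sub_zero] at h3
  exact one_ne_zero h3

end Main

section Concrete

/-- the index type of the orthonormal family. -/
abbrev Ix := Bool ⊕ (ℕ ⊕ ℕ)

variable (e : Ix → H)

/-- the eigenvectors. -/
def xx : ℕ ⊕ ℕ → H :=
  Sum.elim (fun k => e (.inr (.inl k)) + e (.inl true) - ∑ j ∈ Finset.range k, e (.inr (.inr j)))
    (fun j => e (.inr (.inr j)))

/-- the dual eigenvectors. -/
def yy : ℕ ⊕ ℕ → H :=
  Sum.elim (fun k => e (.inr (.inl k)))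
    (fun j => e (.inr (.inr j)) + e (.inl true) -
      ∑ k ∈ Finset.range (j + 1), e (.inr (.inl k)))

/-- the eigenvalues. -/
noncomputable def ss : ℕ ⊕ ℕ → ℝ := Sum.elim (fun k => (1 / 2) ^ k) (fun k => (1 / 2) ^ k)

variable (he : Orthonormal ℂ e)

include he in
omit [CompleteSpace H] in
lemma ite_e (i j : Ix) : inner ℂ (e i) (e j) = if i = j then (1 : ℂ) else 0 :=
  orthonormal_iff_ite.1 he i j

include he in
omit [CompleteSpace H] in
lemma biorth (i j : ℕ ⊕ ℕ) : inner ℂ (yy e i) (xx e j) = if i = j then (1 : ℂ) else 0 := by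
  have h := ite_e e he
  rcases i with k | j' <;> rcases j with l | l
  · simp [xx, yy, inner_add_right, inner_sub_right, inner_sum, h]
  · simp [xx, yy, h]
  · simp only [xx, yy, Sum.elim_inl, Sum.elim_inr, inner_add_right, inner_sub_right, inner_sum,
      inner_add_left, inner_sub_left, sum_inner, h]
    simp only [Sum.inr.injEq, reduceCtorEq, if_false, Finset.sum_const_zero, Sum.inl.injEq,
      Finset.sum_ite_eq, Finset.sum_ite_eq', Finset.mem_range, if_true, add_zero, zero_add,
      sub_zero, zero_sub]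
    by_cases hlt : l < j' + 1
    · have : ¬ j' < l := by omega
      simp [hlt, this]
    · have : j' < l := by omega
      simp [hlt, this]
  · simp [xx, yy, inner_add_left, inner_sub_left, sum_inner, h]

include he in
omit [CompleteSpace H] in
lemma norm_e (i : Ix) : ‖e i‖ = 1 := he.1 i

include he in
omit [CompleteSpace H] in
lemma norm_sum_e_le (n : ℕ) (g : ℕ → Ix) : ‖∑ j ∈ Finset.range n, e (g j)‖ ≤ n := by
  calc ‖∑ j ∈ Finset.range n, e (g j)‖ ≤ ∑ j ∈ Finset.range n, ‖e (g j)‖ := norm_sum_le _ _
    _ = n := by simp [norm_e e he]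

include he in
omit [CompleteSpace H] in
lemma summable_ss : Summable (fun i => |ss i| * ‖xx e i‖ * ‖yy e i‖) := by
  have hg : Summable (fun k : ℕ => (1 / 2 : ℝ) ^ k * (k + 3)) := by
    have h1 : Summable (fun k : ℕ => (k : ℝ) ^ 1 * (1 / 2 : ℝ) ^ k) :=
      summable_pow_mul_geometric_of_norm_lt_one 1 (by norm_num)
    have h2 : Summable (fun k : ℕ => 3 * (1 / 2 : ℝ) ^ k) :=
      (summable_geometric_of_lt_one (by norm_num) (by norm_num)).mul_left 3
    refine (h1.add h2).congr fun k => ?_
    ring
  have h1 := norm_e e he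
  refine Summable.sum _ ?_ ?_
  · refine Summable.of_nonneg_of_le (fun k => by simp only [Function.comp]; positivity)
      (fun k => ?_) hg
    simp only [Function.comp, ss, xx, yy, Sum.elim_inl, h1, mul_one]
    rw [abs_of_pos (by positivity)]
    refine mul_le_mul_of_nonneg_left ?_ (by positivity)
    calc _ ≤ ‖e (.inr (.inl k)) + e (.inl true)‖ +
          ‖∑ j ∈ Finset.range k, e (.inr (.inr j))‖ := norm_sub_le _ _
      _ ≤ (‖e (.inr (.inl k))‖ + ‖e (.inl true)‖) + k :=
          add_le_add (norm_add_le _ _) (norm_sum_e_le e he k _)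
      _ ≤ _ := by rw [h1, h1]; linarith
  · refine Summable.of_nonneg_of_le (fun k => by simp only [Function.comp]; positivity)
      (fun k => ?_) hg
    simp only [Function.comp, ss, xx, yy, Sum.elim_inr, h1, mul_one]
    rw [abs_of_pos (by positivity)]
    refine mul_le_mul_of_nonneg_left ?_ (by positivity)
    calc _ ≤ ‖e (.inr (.inr k)) + e (.inl true)‖ +
          ‖∑ j ∈ Finset.range (k + 1), e (.inr (.inl j))‖ := norm_sub_le _ _
      _ ≤ (‖e (.inr (.inr k))‖ + ‖e (.inl true)‖) + (k + 1 : ℕ) :=
          add_le_add (norm_add_le _ _) (norm_sum_e_le e he (k + 1) _)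
      _ ≤ _ := by rw [h1, h1]; push_cast; linarith

/-- the closed span of all members of the family but one. -/
noncomputable def MM : Submodule ℂ H :=
  (Submodule.span ℂ (e '' {i | i ≠ .inl false})).topologicalClosure

omit [CompleteSpace H] in
lemma mem_MM (i : Ix) (hi : i ≠ .inl false) : e i ∈ MM e :=
  Submodule.le_topologicalClosure _ (Submodule.subset_span ⟨i, hi, rfl⟩)

omit [CompleteSpace H] in
lemma mem_MM_perp {p : H} (h : ∀ i : Ix, i ≠ .inl false → inner ℂ (e i) p = 0) :
    p ∈ (MM e)ᗮ := by
  rw [MM, Submodule.orthogonal_closure, Submodule.mem_orthogonal]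
  intro u hu
  induction hu using Submodule.span_induction with
  | mem u hu =>
    obtain ⟨i, hi, rfl⟩ := hu
    exact h i hi
  | zero => simp
  | add u v _ _ h h' => rw [inner_add_left, h, h', add_zero]
  | smul a u _ h => rw [inner_smul_left, h, mul_zero]

include he in
omit [CompleteSpace H] in
lemma const_zero (g : ℕ → Ix) (hg : Function.Injective g) {p : H} {z : ℂ}
    (h : ∀ k, inner ℂ (e (g k)) p + z = 0) : z = 0 := by
  have h1 := (he.comp g hg).inner_products_summable p
  have h2 : ∀ k, ‖inner ℂ ((e ∘ g) k) p‖ ^ 2 = ‖z‖ ^ 2 := fun k => by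
    have : inner ℂ (e (g k)) p = -z := eq_neg_of_add_eq_zero_left (h k)
    rw [Function.comp_apply, this, norm_neg]
  simp only [h2] at h1
  rw [summable_const_iff] at h1
  simpa using h1

include he in
omit [CompleteSpace H] in
lemma hx_iff (p : H) : (∀ i, inner ℂ (xx e i) p = 0) ↔ p ∈ (MM e)ᗮ := by
  constructor
  · intro h
    have hb : ∀ j, inner ℂ (e (.inr (.inr j))) p = 0 := fun j => h (.inr j)
    have ha : ∀ k, inner ℂ (e (.inr (.inl k))) p + inner ℂ (e (.inl true)) p = 0 := fun k => by
      have := h (.inl k)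
      simpa [xx, inner_sub_left, inner_add_left, sum_inner, hb] using this
    have hf : inner ℂ (e (.inl true)) p = 0 :=
      const_zero e he (fun k => .inr (.inl k)) (fun a b hab => by simpa using hab) ha
    refine mem_MM_perp e fun i hi => ?_
    rcases i with (_ | _) | k | j
    · exact absurd rfl hi
    · exact hf
    · simpa [hf] using ha k
    · exact hb j
  · intro hp i
    refine Submodule.inner_right_of_mem_orthogonal ?_ hp
    rcases i with k | j
    · exact Submodule.sub_mem _ (Submodule.add_mem _ (mem_MM e _ (by simp))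
        (mem_MM e _ (by simp))) (Submodule.sum_mem _ fun j _ => mem_MM e _ (by simp))
    · exact mem_MM e _ (by simp)

include he in
omit [CompleteSpace H] in
lemma hy_iff (p : H) : (∀ i, inner ℂ (yy e i) p = 0) ↔ p ∈ (MM e)ᗮ := by
  constructor
  · intro h
    have hb : ∀ j, inner ℂ (e (.inr (.inl j))) p = 0 := fun j => h (.inl j)
    have ha : ∀ k, inner ℂ (e (.inr (.inr k))) p + inner ℂ (e (.inl true)) p = 0 := fun k => by
      have := h (.inr k)
      simpa [yy, inner_sub_left, inner_add_left, sum_inner, hb] using this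
    have hf : inner ℂ (e (.inl true)) p = 0 :=
      const_zero e he (fun k => .inr (.inr k)) (fun a b hab => by simpa using hab) ha
    refine mem_MM_perp e fun i hi => ?_
    rcases i with (_ | _) | k | j
    · exact absurd rfl hi
    · exact hf
    · exact hb k
    · simpa [hf] using ha j
  · intro hp i
    refine Submodule.inner_right_of_mem_orthogonal ?_ hp
    rcases i with k | j
    · exact mem_MM e _ (by simp)
    · exact Submodule.sub_mem _ (Submodule.add_mem _ (mem_MM e _ (by simp))
        (mem_MM e _ (by simp))) (Submodule.sum_mem _ fun j _ => mem_MM e _ (by simp))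

include he in
theorem main_concrete :
    ∃ T : H →L[ℂ] H, AlmostIsometric T ∧ TraceClass (T - 1) ∧
      ∃ S ∈ bicommutant T, S ∉ resolventSpace T := by
  have : CompleteSpace (MM e) :=
    (Submodule.isClosed_topologicalClosure _).completeSpace_coe
  have h1 := ite_e e he
  refine main_abstract (xx e) (yy e) ss (summable_ss e he) (biorth e he) ?_ (MM e)
    (hx_iff e he) (hy_iff e he) (e (.inl true)) (e (.inl false)) (mem_MM e _ (by simp)) ?_
    (by rw [h1]; simp) (by rw [h1]; simp) ?_ Equiv.natSumNatEquivNat.symm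
  · rintro (k | k) <;> simp [ss]
  · exact mem_MM_perp e fun i hi => by simp [h1, hi]
  · rintro (k | k)
    · right; simp [yy, h1]
    · left; simp [xx, h1]

end Concrete

/-- On every infinite-dimensional complex Hilbert space there is an almost isometric operator
`T` (even a trace class perturbation of the identity) whose bicommutant contains an operator
outside the closed linear span of the resolvents of `T`. -/
theorem result (H : Type*) [NormedAddCommGroup H] [InnerProductSpace ℂ H] [CompleteSpace H]
    (hH : ¬ FiniteDimensional ℂ H) :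
    ∃ T : H →L[ℂ] H, AlmostIsometric T ∧ TraceClass (T - 1) ∧
      ∃ S ∈ bicommutant T, S ∉ resolventSpace T := by
  obtain ⟨w, b, hb⟩ := exists_hilbertBasis ℂ H
  have hw : Infinite w := by
    by_contra hfin
    rw [not_infinite_iff_finite] at hfin
    have := Fintype.ofFinite w
    exact hH (Module.Basis.finiteDimensional_of_finite b.toOrthonormalBasis.toBasis)
  let φ : ℕ ↪ w := Infinite.natEmbedding w
  obtain ⟨ψ⟩ : Nonempty (Ix ≃ ℕ) := inferInstance
  exact main_concrete (fun i => b (φ (ψ i)))
    (b.orthonormal.comp _ (φ.injective.comp ψ.injective))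

end Pool.Agent.Results.MP_9e58cf_an.NotBicommutant
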